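import Mathlib

/-!
# Overcomplete frames of translates are never bounded orbits

If `{T_{kb} φ}` (`k ∈ ℤ`) is an overcomplete frame sequence in `L²(ℝ)`, then no ordering of it by
`ℕ` is of the form `f k = V^k f 0` with a bounded operator `V`.

The proof.  Let `T e_k = f_k` be the synthesis operator on `ℓ²(ℤ)`, `N` its kernel, `Q` the
orthogonal projection onto `Nᗮ`.  `N` is invariant under the bilateral shift and its inverse, so
`‖Q e_k‖` does not depend on `k`.  If the ordering `σ` is represented by a bounded operator, then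
`N` is invariant under the isometry `S e_k = e_{τ k}`, where `τ (σ n) = σ (n + 1)`.  So
`Q S x = Q S Q x` for all `x`, and as `‖Q S e_k‖ = ‖Q e_k‖ = ‖S Q e_k‖` we get
`Q e_{τ k} = S Q e_k`, which is orthogonal to `e_{σ 0}`.  Hence `Q e_{σ 0}` is orthogonal to all
`e_j` with `j ≠ σ 0`, so `Q e_{σ 0}` is `0` or `e_{σ 0}`, and by constancy of the norms `Q = 0` or
`Q = 1`.  As `φ ≠ 0`, `N = 0`, and the frame sequence is a Riesz sequence.
-/

set_option autoImplicit false

open scoped InnerProductSpace ENNReal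
open MeasureTheory

namespace Pool.Agent.Results.MP_909498_an.NoBoundedOrbit

variable {H : Type*} [NormedAddCommGroup H] [InnerProductSpace ℂ H] [CompleteSpace H]

/-- `ℓ²(ℤ)`. -/
noncomputable abbrev E := lp (fun _ : ℤ => ℂ) 2

/-- the standard basis of `ℓ²(ℤ)` -/
noncomputable def e (n : ℤ) : E := lp.single 2 n (1 : ℂ)

lemma e_norm (n : ℤ) : ‖e n‖ = 1 := by
  unfold e
  rw [lp.norm_single (by norm_num)]
  simp

lemma inner_e (n : ℤ) (c : E) : ⟪e n, c⟫_ℂ = c n := by
  unfold e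
  rw [lp.inner_single_left]
  simp

lemma e_apply (n m : ℤ) : (e n) m = if m = n then (1 : ℂ) else 0 := by
  unfold e
  rw [lp.single_apply]
  by_cases h : m = n
  · subst h; simp
  · simp [h]

lemma e_orth {n m : ℤ} (h : n ≠ m) : ⟪e n, e m⟫_ℂ = 0 := by
  rw [inner_e, e_apply, if_neg h]

lemma e_orthonormal {τ : ℤ → ℤ} (hτ : Function.Injective τ) : Orthonormal ℂ (fun n => e (τ n)) :=
  ⟨fun _ => e_norm _, fun _ _ h => e_orth (fun h' => h (hτ h'))⟩

/-- the isometry `e n ↦ e (τ n)` -/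
noncomputable def shiftOp {τ : ℤ → ℤ} (hτ : Function.Injective τ) : E →ₗᵢ[ℂ] E :=
  (e_orthonormal hτ).orthogonalFamily.linearIsometry

lemma shiftOp_e {τ : ℤ → ℤ} (hτ : Function.Injective τ) (n : ℤ) :
    shiftOp hτ (e n) = e (τ n) := by
  unfold shiftOp
  conv_lhs => rw [e]
  rw [OrthogonalFamily.linearIsometry_apply_single]
  simp

lemma hasSum_e (c : E) : HasSum (fun n => (c n) • e n) c := by
  have h := lp.hasSum_single (p := 2) (E := fun _ : ℤ => ℂ) (by norm_num) c
  convert h using 2 with n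
  unfold e
  rw [← lp.single_smul]
  simp

lemma ext_e {F : Type*} [NormedAddCommGroup F] [NormedSpace ℂ F] {A B : E →L[ℂ] F}
    (h : ∀ n, A (e n) = B (e n)) : A = B := by
  ext c
  have h1 := (hasSum_e c).mapL A
  have h2 := (hasSum_e c).mapL B
  simp only [map_smul, h] at h1 h2
  exact h1.unique h2

/-- a closed condition preserved by finite sums -/
lemma bound_ext {F G : Type*} [NormedAddCommGroup F] [NormedSpace ℂ F]
    [NormedAddCommGroup G] [NormedSpace ℂ G] (A : E →L[ℂ] F) (B : E →L[ℂ] G) (C : ℝ)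
    (h : ∀ (s : Finset ℤ) (c : ℤ → ℂ), ‖A (∑ n ∈ s, c n • e n)‖ ≤ C * ‖B (∑ n ∈ s, c n • e n)‖)
    (c : E) : ‖A c‖ ≤ C * ‖B c‖ := by
  have hs := hasSum_e c
  have h1 : Filter.Tendsto (fun s : Finset ℤ => ‖A (∑ n ∈ s, c n • e n)‖) Filter.atTop
      (nhds ‖A c‖) := ((A.continuous.norm).tendsto c).comp hs
  have h2 : Filter.Tendsto (fun s : Finset ℤ => C * ‖B (∑ n ∈ s, c n • e n)‖) Filter.atTop
      (nhds (C * ‖B c‖)) :=
    (((B.continuous.norm).const_mul C).tendsto c |>.comp hs :)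
  exact le_of_tendsto_of_tendsto' h1 h2 (fun s => h s c)

section proj
variable (N : Submodule ℂ E) [N.HasOrthogonalProjection]

/-- the projection onto `Nᗮ` -/
noncomputable def Q : E →L[ℂ] E := Nᗮ.starProjection

lemma Q_mem (x : E) : Q N x ∈ Nᗮ := by
  unfold Q
  exact Submodule.starProjection_apply_mem _ _

lemma sub_Q_mem (x : E) : x - Q N x ∈ N := by
  unfold Q
  have := Nᗮ.sub_starProjection_mem_orthogonal x
  rwa [Submodule.orthogonal_orthogonal] at this

lemma Q_eq_zero {x : E} (h : x ∈ N) : Q N x = 0 := by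
  unfold Q
  rw [Submodule.starProjection_apply_eq_zero_iff, Submodule.orthogonal_orthogonal]
  exact h

lemma Q_norm_le (x : E) : ‖Q N x‖ ≤ ‖x‖ := by
  unfold Q
  exact Submodule.norm_starProjection_apply_le _ _

lemma Q_norm_eq {x : E} (h : ‖Q N x‖ = ‖x‖) : Q N x = x := by
  have h1 : ‖x‖ * ‖x‖ = ‖Q N x‖ * ‖Q N x‖ + ‖x - Q N x‖ * ‖x - Q N x‖ := by
    have h2 : ⟪Q N x, x - Q N x⟫_ℂ = 0 :=
      Submodule.inner_left_of_mem_orthogonal (sub_Q_mem N x) (Q_mem N x)
    have := norm_add_sq_eq_norm_sq_add_norm_sq_of_inner_eq_zero _ _ h2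
    rw [← this]
    simp
  rw [h] at h1
  have h3 : ‖x - Q N x‖ = 0 := by nlinarith [norm_nonneg (x - Q N x)]
  rw [norm_eq_zero, sub_eq_zero] at h3
  exact h3.symm

lemma inner_Q (x y : E) : ⟪Q N x, y⟫_ℂ = ⟪x, Q N y⟫_ℂ := by
  unfold Q
  exact Submodule.inner_starProjection_left_eq_right _ _ _

/-- If the isometry `S` maps `N` to itself, then `‖Q S x‖ ≤ ‖Q x‖`. -/
lemma key_eq (S : E →ₗᵢ[ℂ] E) (hS : ∀ x ∈ N, S x ∈ N) (x : E) :
    Q N (S x) = Q N (S (Q N x)) := by
  have h1 := hS _ (sub_Q_mem N x)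
  have h2 := Q_eq_zero N h1
  rw [map_sub, map_sub, sub_eq_zero] at h2
  exact h2

lemma key_le (S : E →ₗᵢ[ℂ] E) (hS : ∀ x ∈ N, S x ∈ N) (x : E) :
    ‖Q N (S x)‖ ≤ ‖Q N x‖ := by
  rw [key_eq N S hS]
  exact (Q_norm_le N _).trans (S.norm_map _).le

lemma key_comm (S : E →ₗᵢ[ℂ] E) (hS : ∀ x ∈ N, S x ∈ N) (x : E)
    (h : ‖Q N (S x)‖ = ‖Q N x‖) : Q N (S x) = S (Q N x) := by
  rw [key_eq N S hS] at h ⊢
  apply Q_norm_eq
  rw [h, S.norm_map]

end proj

/-- The main abstract lemma. -/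
theorem main_abs (N : Submodule ℂ E) [N.HasOrthogonalProjection]
    (hN : N ≠ ⊤)
    (hW : ∀ x ∈ N, shiftOp (add_left_injective (1 : ℤ)) x ∈ N)
    (hW' : ∀ x ∈ N, shiftOp (add_left_injective (-1 : ℤ)) x ∈ N)
    (τ : ℤ → ℤ) (hτ : Function.Injective τ) (z : ℤ) (hz : ∀ n, n ≠ z ↔ n ∈ Set.range τ)
    (hS : ∀ x ∈ N, shiftOp hτ x ∈ N) : N = ⊥ := by
  -- constancy of the norms
  have hc1 : ∀ n : ℤ, ‖Q N (e (n + 1))‖ = ‖Q N (e n)‖ := by
    intro n
    apply le_antisymm
    · have := key_le N _ hW (e n)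
      rwa [shiftOp_e] at this
    · have := key_le N _ hW' (e (n + 1))
      rw [shiftOp_e] at this
      simpa using this
  have hc : ∀ n : ℤ, ‖Q N (e n)‖ = ‖Q N (e 0)‖ := by
    intro n
    induction n using Int.induction_on with
    | zero => rfl
    | succ k ih => rw [hc1, ih]
    | pred k ih =>
      rw [← ih, ← hc1 (-(k : ℤ) - 1)]
      congr 3
      ring
  -- commutation
  have hcomm : ∀ m, Q N (e (τ m)) = shiftOp hτ (Q N (e m)) := by
    intro m
    rw [← shiftOp_e hτ m]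
    apply key_comm N _ hS
    rw [shiftOp_e, hc, hc m]
  -- range of the shift is orthogonal to e z
  have hrange : ∀ x : E, ⟪e z, shiftOp hτ x⟫_ℂ = 0 := by
    intro x
    have h1 := (hasSum_e x).mapL (shiftOp hτ).toContinuousLinearMap
    have h2 := h1.mapL (innerSL ℂ (e z))
    simp only [map_smul, LinearIsometry.coe_toContinuousLinearMap, shiftOp_e, innerSL_apply_apply]
      at h2
    have h3 : ∀ n, (x n) • ⟪e z, e (τ n)⟫_ℂ = 0 := by
      intro n
      have : τ n ≠ z := (hz _).2 ⟨n, rfl⟩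
      rw [e_orth this.symm, smul_zero]
    simp only [h3] at h2
    exact h2.unique hasSum_zero
  have horth : ∀ j, j ≠ z → ⟪e j, Q N (e z)⟫_ℂ = 0 := by
    intro j hj
    obtain ⟨m, rfl⟩ := (hz j).1 hj
    rw [← inner_Q, hcomm, ← inner_conj_symm, hrange, map_zero]
  set lam : ℂ := ⟪e z, Q N (e z)⟫_ℂ with hlam
  have hQz : Q N (e z) = lam • e z := by
    have h1 := hasSum_e (Q N (e z))
    have h2 : HasSum (fun n => (Q N (e z) n) • e n) (lam • e z) := by
      have h3 : (fun n => (Q N (e z) n) • e n) = fun n => if n = z then lam • e z else 0 := by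
        funext n
        by_cases hn : n = z
        · subst hn
          rw [if_pos rfl, hlam, inner_e]
        · rw [if_neg hn, ← inner_e, horth n hn, zero_smul]
      rw [h3]
      exact hasSum_ite_eq z _
    exact h1.unique h2
  have hsq : lam * lam = lam := by
    have h1 : Q N (Q N (e z)) = Q N (e z) := by
      have h2 := Q_eq_zero N (sub_Q_mem N (e z))
      rw [map_sub, sub_eq_zero] at h2
      exact h2.symm
    rw [hQz, map_smul, hQz, smul_smul] at h1
    have h2 := congrArg (fun x => ⟪e z, x⟫_ℂ) h1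
    simp only [inner_smul_right] at h2
    have h3 : ⟪e z, e z⟫_ℂ = 1 := by rw [inner_e, e_apply, if_pos rfl]
    rw [h3, mul_one, mul_one] at h2
    exact h2
  have hlam01 : lam = 0 ∨ lam = 1 := by
    have : lam * (lam - 1) = 0 := by rw [mul_sub, hsq, mul_one, sub_self]
    rcases mul_eq_zero.1 this with h | h
    · exact Or.inl h
    · exact Or.inr (sub_eq_zero.1 h)
  rcases hlam01 with h0 | h1
  · exfalso
    apply hN
    rw [h0, zero_smul] at hQz
    have hall : ∀ n, Q N (e n) = 0 := by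
      intro n
      rw [← norm_eq_zero, hc n, ← hc z, hQz, norm_zero]
    have hQ0 : Q N = 0 := ext_e (fun n => by rw [hall n]; rfl)
    rw [eq_top_iff]
    intro x _
    have := sub_Q_mem N x
    rwa [hQ0, zero_apply, sub_zero] at this
  · rw [h1, one_smul] at hQz
    have hall : ∀ n, Q N (e n) = e n := by
      intro n
      apply Q_norm_eq
      rw [hc n, ← hc z, hQz, e_norm, e_norm]
    have hQ1 : Q N = ContinuousLinearMap.id ℂ E := ext_e (fun n => by rw [hall n]; rfl)
    rw [eq_bot_iff]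
    intro x hx
    have := Q_eq_zero N hx
    rw [hQ1] at this
    exact this


section frame
variable {ι : Type*}

/-- `{f k}` is a frame sequence: there are `A, B > 0` with
`A ‖g‖² ≤ ∑ |⟨g, f k⟩|² ≤ B ‖g‖²` for all `g` in the closed linear span of the `f k`. -/
def IsFrameSeq (f : ι → H) : Prop :=
  ∃ A B : ℝ, 0 < A ∧ 0 < B ∧ ∀ g ∈ (Submodule.span ℂ (Set.range f)).topologicalClosure,
    Summable (fun k => ‖⟪f k, g⟫_ℂ‖ ^ 2) ∧
      A * ‖g‖ ^ 2 ≤ ∑' k, ‖⟪f k, g⟫_ℂ‖ ^ 2 ∧ ∑' k, ‖⟪f k, g⟫_ℂ‖ ^ 2 ≤ B * ‖g‖ ^ 2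

/-- `{f k}` is a Riesz sequence, i.e. a Riesz basis of its closed linear span: there are
`A, B > 0` with `A ∑ |c k|² ≤ ‖∑ c k f k‖² ≤ B ∑ |c k|²` for all finite sums. -/
def IsRieszSeq (f : ι → H) : Prop :=
  ∃ A B : ℝ, 0 < A ∧ 0 < B ∧ ∀ (s : Finset ι) (c : ι → ℂ),
    A * ∑ k ∈ s, ‖c k‖ ^ 2 ≤ ‖∑ k ∈ s, c k • f k‖ ^ 2 ∧
      ‖∑ k ∈ s, c k • f k‖ ^ 2 ≤ B * ∑ k ∈ s, ‖c k‖ ^ 2

/-- the sequence `f 0, f 1, ...` is represented by a bounded operator: there is a bounded linear
`V : span {f k} → H` with `V (f k) = f (k + 1)` for all `k`, i.e. `f k = V^k (f 0)`. -/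
def IsBddOrbit (f : ℕ → H) : Prop :=
  ∃ V : Submodule.span ℂ (Set.range f) →L[ℂ] H,
    ∀ k : ℕ, V ⟨f k, Submodule.subset_span ⟨k, rfl⟩⟩ = f (k + 1)

end frame

lemma norm_sum_e (s : Finset ℤ) (c : ℤ → ℂ) :
    ‖∑ n ∈ s, c n • e n‖ ^ 2 = ∑ n ∈ s, ‖c n‖ ^ 2 := by
  have h := (e_orthonormal Function.injective_id).orthogonalFamily.norm_sum (fun n => c n) s
  simpa using h

lemma tsum_norm_sq (c : E) : ‖c‖ ^ 2 = ∑' n, ‖c n‖ ^ 2 := by
  have h := lp.norm_rpow_eq_tsum (p := 2) (by norm_num) c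
  simpa using h

/-- the analysis operator -/
theorem exists_analysis (f : ℤ → H) (hf : IsFrameSeq f) :
    ∃ C : H →L[ℂ] E, ∀ g n, C g n = ⟪f n, g⟫_ℂ := by
  obtain ⟨A, B, hA, hB, h⟩ := hf
  set K := (Submodule.span ℂ (Set.range f)).topologicalClosure with hK
  have : CompleteSpace K := (Submodule.isClosed_topologicalClosure _).completeSpace_coe
  have hfK : ∀ n, f n ∈ K := fun n =>
    Submodule.le_topologicalClosure _ (Submodule.subset_span ⟨n, rfl⟩)
  have hP : ∀ g n, ⟪f n, g⟫_ℂ = ⟪f n, K.starProjection g⟫_ℂ := by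
    intro g n
    rw [← Submodule.inner_starProjection_left_eq_right,
      Submodule.starProjection_eq_self_iff.2 (hfK n)]
  have hPmem : ∀ g, K.starProjection g ∈ K := fun g => Submodule.starProjection_apply_mem _ _
  have hsum : ∀ g, Summable (fun k => ‖⟪f k, g⟫_ℂ‖ ^ 2) := by
    intro g
    have := (h _ (hPmem g)).1
    simpa only [← hP g] using this
  have hle : ∀ g, ∑' k, ‖⟪f k, g⟫_ℂ‖ ^ 2 ≤ B * ‖g‖ ^ 2 := by
    intro g
    have h1 := (h _ (hPmem g)).2.2
    simp only [← hP g] at h1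
    refine h1.trans ?_
    have h2 := Submodule.norm_starProjection_apply_le K g
    have h3 := norm_nonneg (K.starProjection g)
    gcongr
  have hmem : ∀ g, Memℓp (fun k => ⟪f k, g⟫_ℂ) 2 := by
    intro g
    rw [memℓp_gen_iff (by norm_num)]
    simpa using hsum g
  let C0 : H →ₗ[ℂ] E :=
    { toFun := fun g => ⟨fun k => ⟪f k, g⟫_ℂ, hmem g⟩
      map_add' := by
        intro x y
        ext k
        simp only [inner_add_right]
        rfl
      map_smul' := by
        intro a x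
        ext k
        simp only [inner_smul_right]
        rfl }
  have hC0 : ∀ g n, C0 g n = ⟪f n, g⟫_ℂ := fun g n => rfl
  refine ⟨C0.mkContinuous (Real.sqrt B) ?_, fun g n => rfl⟩
  intro g
  have h1 : ‖C0 g‖ ^ 2 ≤ (Real.sqrt B * ‖g‖) ^ 2 := by
    rw [tsum_norm_sq, mul_pow, Real.sq_sqrt hB.le]
    simpa only [hC0] using hle g
  exact (sq_le_sq₀ (norm_nonneg _) (by positivity)).1 h1

theorem abstract_main (f : ℤ → H) (hf0 : f 0 ≠ 0) (hf : IsFrameSeq f) (U U' : H →L[ℂ] H)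
    (hU : ∀ n, U (f n) = f (n + 1)) (hU' : ∀ n, U' (f n) = f (n + -1))
    (σ : ℕ ≃ ℤ) (hV : IsBddOrbit (fun k => f (σ k))) : IsRieszSeq f := by
  obtain ⟨C, hC⟩ := exists_analysis f hf
  set T : E →L[ℂ] H := C.adjoint with hT
  have hTe : ∀ n, T (e n) = f n := by
    intro n
    apply ext_inner_right ℂ
    intro g
    rw [hT, ContinuousLinearMap.adjoint_inner_left, inner_e, hC]
  have hWgen : ∀ (U : H →L[ℂ] H) (τ : ℤ → ℤ) (hτ : Function.Injective τ)
      (_ : ∀ n, U (f n) = f (τ n)), ∀ x ∈ LinearMap.ker T.toLinearMap,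
        shiftOp hτ x ∈ LinearMap.ker T.toLinearMap := by
    intro U τ hτ hU x hx
    have h1 : T ∘L (shiftOp hτ).toContinuousLinearMap = U ∘L T := by
      apply ext_e
      intro n
      simp [shiftOp_e, hTe, hU]
    have h2 := congrArg (fun L => L x) h1
    simp only [ContinuousLinearMap.comp_apply, LinearIsometry.coe_toContinuousLinearMap] at h2
    have hx' : T x = 0 := hx
    change T (shiftOp hτ x) = 0
    rw [h2, hx', map_zero]
  -- the map τ
  set τ : ℤ → ℤ := fun n => σ (σ.symm n + 1) with hτdef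
  have hτ : Function.Injective τ := by
    intro a b hab
    have := σ.injective hab
    exact σ.symm.injective (Nat.succ_injective this)
  have hz : ∀ n, n ≠ σ 0 ↔ n ∈ Set.range τ := by
    intro n
    constructor
    · intro hn
      have h0 : σ.symm n ≠ 0 := by
        intro h
        apply hn
        rw [← h, Equiv.apply_symm_apply]
      obtain ⟨k, hk⟩ := Nat.exists_eq_succ_of_ne_zero h0
      refine ⟨σ k, ?_⟩
      simp only [hτdef, Equiv.symm_apply_apply]
      rw [← Nat.succ_eq_add_one, ← hk, Equiv.apply_symm_apply]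
    · rintro ⟨m, rfl⟩ h
      have := σ.injective h
      omega
  obtain ⟨V, hV⟩ := hV
  have hmem : ∀ n, f n ∈ Submodule.span ℂ (Set.range (fun k => f (σ k))) := by
    intro n
    apply Submodule.subset_span
    exact ⟨σ.symm n, by simp⟩
  have hVf : ∀ n, V ⟨f n, hmem n⟩ = f (τ n) := by
    intro n
    have h1 : V ⟨f (σ (σ.symm n)), Submodule.subset_span ⟨σ.symm n, rfl⟩⟩ =
      f (σ (σ.symm n + 1)) := hV (σ.symm n)
    simp only [hτdef]
    rw [← h1]
    congr 2
    simp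
  have hbd : ∀ c : E, ‖(T ∘L (shiftOp hτ).toContinuousLinearMap) c‖ ≤ ‖V‖ * ‖T c‖ := by
    apply bound_ext
    intro s c
    have h1 : (T ∘L (shiftOp hτ).toContinuousLinearMap) (∑ n ∈ s, c n • e n) =
        V (∑ n ∈ s, c n • ⟨f n, hmem n⟩) := by
      rw [map_sum, map_sum]
      refine Finset.sum_congr rfl (fun n _ => ?_)
      rw [map_smul, map_smul, hVf]
      simp [shiftOp_e, hTe]
    have h2 : ‖T (∑ n ∈ s, c n • e n)‖ =
        ‖(∑ n ∈ s, c n • (⟨f n, hmem n⟩ :
          Submodule.span ℂ (Set.range (fun k => f (σ k)))))‖ := by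
      rw [← Submodule.norm_coe]
      simp [map_sum, hTe]
    rw [h1, h2]
    exact V.le_opNorm _
  have hS : ∀ x ∈ LinearMap.ker T.toLinearMap, shiftOp hτ x ∈ LinearMap.ker T.toLinearMap := by
    intro x hx
    have hx' : T x = 0 := hx
    have := hbd x
    rw [hx', norm_zero, mul_zero] at this
    have h3 := norm_le_zero_iff.1 this
    exact h3
  have : CompleteSpace (LinearMap.ker T.toLinearMap) :=
    (ContinuousLinearMap.isClosed_ker T).completeSpace_coe
  have hbot : LinearMap.ker T.toLinearMap = ⊥ := by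
    refine main_abs (LinearMap.ker T.toLinearMap) ?_ (hWgen U _ _ hU) (hWgen U' _ _ hU')
      τ hτ (σ 0) hz hS
    intro htop
    apply hf0
    rw [← hTe 0]
    have : e 0 ∈ LinearMap.ker T.toLinearMap := by rw [htop]; trivial
    exact this
  -- dense range of C
  have hdense : Dense (Set.range C) := by
    have h1 : (LinearMap.range C.toLinearMap).topologicalClosure = ⊤ := by
      rw [Submodule.topologicalClosure_eq_top_iff, ContinuousLinearMap.orthogonal_range]
      exact hbot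
    rw [← Submodule.dense_iff_topologicalClosure_eq_top] at h1
    exact h1
  obtain ⟨A, B, hA, hB, h⟩ := hf
  set K := (Submodule.span ℂ (Set.range f)).topologicalClosure with hK
  have : CompleteSpace K := (Submodule.isClosed_topologicalClosure _).completeSpace_coe
  have hfK : ∀ n, f n ∈ K := fun n =>
    Submodule.le_topologicalClosure _ (Submodule.subset_span ⟨n, rfl⟩)
  have hP : ∀ g n, ⟪f n, g⟫_ℂ = ⟪f n, K.starProjection g⟫_ℂ := by
    intro g n
    rw [← Submodule.inner_starProjection_left_eq_right,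
      Submodule.starProjection_eq_self_iff.2 (hfK n)]
  have hCP : ∀ g, C g = C (K.starProjection g) := by
    intro g
    ext n
    rw [hC, hC, hP]
  have hCA : ∀ g, Real.sqrt A * ‖K.starProjection g‖ ≤ ‖C g‖ := by
    intro g
    have h1 := (h _ (Submodule.starProjection_apply_mem K g)).2.1
    have h2 : ‖C g‖ ^ 2 = ∑' k, ‖⟪f k, K.starProjection g⟫_ℂ‖ ^ 2 := by
      rw [tsum_norm_sq, hCP]
      simp only [hC]
    rw [← h2] at h1
    have h3 : (Real.sqrt A * ‖K.starProjection g‖) ^ 2 ≤ ‖C g‖ ^ 2 := by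
      rw [mul_pow, Real.sq_sqrt hA.le]
      exact h1
    exact (sq_le_sq₀ (by positivity) (norm_nonneg _)).1 h3
  have hlow : ∀ c : E, Real.sqrt A * ‖c‖ ≤ ‖T c‖ := by
    intro c
    have hcl : IsClosed {c : E | Real.sqrt A * ‖c‖ ≤ ‖T c‖} :=
      isClosed_le (continuous_const.mul continuous_norm) (T.continuous.norm)
    have hsub : Set.range C ⊆ {c : E | Real.sqrt A * ‖c‖ ≤ ‖T c‖} := by
      rintro _ ⟨g, rfl⟩
      simp only [Set.mem_ofPred_eq]
      rcases eq_or_lt_of_le (norm_nonneg (C g)) with h0 | h0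
      · rw [← h0, mul_zero]; exact norm_nonneg _
      have h1 : ‖C g‖ * ‖C g‖ ≤ ‖K.starProjection g‖ * ‖T (C g)‖ := by
        have h2 : ⟪C (K.starProjection g), C g⟫_ℂ = ⟪K.starProjection g, T (C g)⟫_ℂ := by
          rw [hT, ContinuousLinearMap.adjoint_inner_right]
        rw [← hCP g] at h2
        have h3 : ‖⟪C g, C g⟫_ℂ‖ = ‖C g‖ * ‖C g‖ := by
          rw [inner_self_eq_norm_sq_to_K]
          simp [sq]
        rw [← h3, h2]
        exact norm_inner_le_norm _ _
      have h2 := hCA g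
      have h4 : Real.sqrt A * (‖C g‖ * ‖C g‖) ≤ ‖C g‖ * ‖T (C g)‖ := by
        calc Real.sqrt A * (‖C g‖ * ‖C g‖)
            ≤ Real.sqrt A * (‖K.starProjection g‖ * ‖T (C g)‖) := by gcongr
          _ = (Real.sqrt A * ‖K.starProjection g‖) * ‖T (C g)‖ := by ring
          _ ≤ ‖C g‖ * ‖T (C g)‖ := by gcongr
      have h5 : ‖C g‖ * (Real.sqrt A * ‖C g‖) ≤ ‖C g‖ * ‖T (C g)‖ := by
        calc _ = Real.sqrt A * (‖C g‖ * ‖C g‖) := by ring
          _ ≤ _ := h4
      exact le_of_mul_le_mul_left h5 h0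
    have := closure_minimal hsub hcl
    exact this (hdense c)
  refine ⟨A, ‖T‖ ^ 2 + 1, hA, by positivity, ?_⟩
  intro s c
  have hsum : T (∑ n ∈ s, c n • e n) = ∑ k ∈ s, c k • f k := by
    simp [map_sum, hTe]
  rw [← hsum, ← norm_sum_e]
  constructor
  · have h1 := hlow (∑ n ∈ s, c n • e n)
    have h2 : (Real.sqrt A * ‖∑ n ∈ s, c n • e n‖) ^ 2 ≤ ‖T (∑ n ∈ s, c n • e n)‖ ^ 2 := by
      gcongr
    rwa [mul_pow, Real.sq_sqrt hA.le] at h2
  · have h1 := T.le_opNorm (∑ n ∈ s, c n • e n)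
    have h2 : ‖T (∑ n ∈ s, c n • e n)‖ ^ 2 ≤ (‖T‖ * ‖∑ n ∈ s, c n • e n‖) ^ 2 := by
      gcongr
    rw [mul_pow] at h2
    nlinarith [sq_nonneg ‖∑ n ∈ s, c n • e n‖]

/-- `L²(ℝ)`, complex valued. -/
noncomputable abbrev L2 := Lp ℂ 2 (volume : Measure ℝ)

/-- the translation `(T_a f)(x) = f(x - a)` on `L²(ℝ)` -/
noncomputable def trans (a : ℝ) : L2 →ₗᵢ[ℂ] L2 :=
  Lp.compMeasurePreservingₗᵢ ℂ (fun x : ℝ => x - a) (measurePreserving_sub_right volume a)

lemma trans_ae (a : ℝ) (f : L2) : trans a f =ᵐ[volume] fun x => f (x - a) :=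
  Lp.coeFn_compMeasurePreserving f (measurePreserving_sub_right volume a)

lemma trans_trans (a b : ℝ) (f : L2) : trans a (trans b f) = trans (b + a) f := by
  apply Lp.ext
  have h1 := trans_ae a (trans b f)
  have h2 := trans_ae (b + a) f
  have h3 : (fun x => (trans b f) (x - a)) =ᵐ[volume] fun x => f (x - a - b) :=
    (measurePreserving_sub_right volume a).quasiMeasurePreserving.ae_eq_comp (trans_ae b f)
  filter_upwards [h1, h2, h3] with x hx1 hx2 hx3
  rw [hx1, hx2, hx3]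
  congr 1
  ring

/-- Let `φ ∈ L²(ℝ)`, `φ ≠ 0`, `b > 0`, and let `{T_{kb} φ}` (`k ∈ ℤ`) be an overcomplete frame
sequence, that is, a frame sequence which is not a Riesz basis of its closed linear span.  Then for
every ordering `σ : ℕ ≃ ℤ` the sequence `f k = T_{σ(k) b} φ` is not represented by a bounded
operator. -/
theorem result (φ : L2) (hφ : φ ≠ 0) (b : ℝ) (_hb : 0 < b)
    (hframe : IsFrameSeq (fun k : ℤ => trans (k * b) φ))
    (hover : ¬ IsRieszSeq (fun k : ℤ => trans (k * b) φ)) (σ : ℕ ≃ ℤ) :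
    ¬ IsBddOrbit (fun k : ℕ => trans ((σ k : ℤ) * b) φ) := by
  intro hV
  apply hover
  refine abstract_main (fun k : ℤ => trans (k * b) φ) ?_ hframe
    (trans b).toContinuousLinearMap (trans (-b)).toContinuousLinearMap ?_ ?_ σ hV
  · intro h
    apply hφ
    have h2 : ‖trans (((0 : ℤ) : ℝ) * b) φ‖ = ‖φ‖ := (trans _).norm_map _
    have h3 : trans (((0 : ℤ) : ℝ) * b) φ = 0 := h
    rw [h3, norm_zero] at h2
    exact norm_eq_zero.1 h2.symm
  · intro n
    simp only [LinearIsometry.coe_toContinuousLinearMap]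
    rw [trans_trans]
    congr 1
    push_cast
    ring_nf
  · intro n
    simp only [LinearIsometry.coe_toContinuousLinearMap]
    rw [trans_trans]
    congr 1
    push_cast
    ring_nf

end Pool.Agent.Results.MP_909498_an.NoBoundedOrbit
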